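import Pool.Agent.H595.Dens.Add

set_option autoImplicit false

/-!
# The density of the scales at which `π + e` or `π - e` is near a rational number

Let `ξ` be a real number with irrationality exponent two, for instance `ξ = e`, let `r ≠ s` be rational numbers and
let `t` be any real number, for instance `t = π`. For an exponent `w > 1` we consider the scales `X` at which one of
the two numbers `t + r ξ` and `t + s ξ` is near a rational number, that is, `|q y - p| ≤ X ^ (-w)` with integers `p`
and `1 ≤ q ≤ X`, where `y` is one of the two numbers. If one of the numbers is rational then all large scales have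
this property. We show that if both numbers are irrational then the lower logarithmic density of the set of these
scales is at most `max (2 / w) ((2 + (3 - w) / √2) / w)`, which is `1` at `w = 1 + √2` and less than `1` for
`w > 1 + √2`. So there is a zero-one law: for each `w > 1 + √2 = 2.414…` both `π + e` and `π - e` are irrational if
and only if the lower logarithmic density of the scales at which one of them is near a rational number with
exponent `w` is at most `max (2 / w) ((2 + (3 - w) / √2) / w)`; for instance, they are both irrational if and only if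
it is not true that at more than half of the large scales one of them is near a rational number with the exponent
`4 + ε`. For `w ≥ 3` the bound is best possible, for `ξ = e` and any `r ≠ s`, for a dense set of real numbers `t`.

Method. Let `p_i / q_i` be the approximations, to one of the two numbers, which are minimal and of exponent `w` at
their own scale `q_i`, `L_i = |q_i y - p_i|`. Since `(r - s) ξ` is not near a rational number,
`L_i ≥ q_(i+1)^(-2-ε) q_i^(-1-ε)`; and two of three consecutive approximations belong to the same number, which gives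
`L_i ≥ q_(i+2)^(-1) / 2`. The bound follows from these two inequalities by a potential argument and an argument on
the growth of the partial sums of `log q_i`.
-/

namespace Pool.Agent.Results.MP_363d4d_nt.DensityNearRational

open Filter MeasureTheory Real

/-- `ξ` has irrationality exponent (at most) two -/
def ExponentTwo (ξ : ℝ) : Prop := ∀ ε : ℝ, 0 < ε → ∃ c : ℝ, 0 < c ∧ ∀ p q : ℤ, 1 ≤ q →
  c * (q : ℝ) ^ (-(1 + ε)) ≤ |q * ξ - p|

/-- at the scale `X` the number `y` is near a rational number, with exponent `w` -/
def NearRational (y w X : ℝ) : Prop := ∃ p q : ℤ, 1 ≤ q ∧ (q : ℝ) ≤ X ∧ |q * y - p| ≤ X ^ (-w)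

/-- the logarithms `x` of the scales at which `y` or `z` is near a rational number -/
def logScales (y z w : ℝ) : Set ℝ := {x | NearRational y w (exp x) ∨ NearRational z w (exp x)}

/-- the lower density of a set of positive real numbers; for the set of the logarithms of the elements
of a set of scales it is the lower logarithmic density of the set of scales -/
noncomputable def lowerDensity (S : Set ℝ) : ℝ :=
  liminf (fun T : ℝ => (volume (S ∩ Set.Icc 0 T)).toReal / T) atTop

/-- the bound for the density -/
noncomputable def law (w : ℝ) : ℝ := max (2 / w) ((2 + (3 - w) / √2) / w)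

/-- the two coefficients -/
def co (r s : ℚ) : Fin 2 → ℚ := ![r, s]

theorem co_inj {r s : ℚ} (h : r ≠ s) : Function.Injective (co r s) := by
  intro i j hij
  fin_cases i <;> fin_cases j <;> simp [co] at hij ⊢
  · exact h hij
  · exact h hij.symm

theorem logScales_eq (t ξ : ℝ) (r s : ℚ) (w : ℝ) : logScales (t + r * ξ) (t + s * ξ) w =
    Pool.Agent.H595.Dens.ratScales (fun j => t + co r s j * ξ) w := by
  ext x
  constructor
  · rintro (⟨p, q, h1, h2, h3⟩ | ⟨p, q, h1, h2, h3⟩)
    · exact ⟨0, p, q, h1, h2, h3⟩
    · exact ⟨1, p, q, h1, h2, h3⟩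
  · rintro ⟨j, p, q, h1, h2, h3⟩
    fin_cases j
    · exact Or.inl ⟨p, q, h1, h2, h3⟩
    · exact Or.inr ⟨p, q, h1, h2, h3⟩

theorem sqrt_two_gt : 1 < √2 := by
  rw [show (1 : ℝ) = √1 by rw [Real.sqrt_one]]
  exact Real.sqrt_lt_sqrt (by norm_num) (by norm_num)

theorem law_eq {w : ℝ} (hw : 0 < w) : law w = Pool.Agent.H595.Dens.famLaw (1 + √2) w := by
  have h := sqrt_two_gt
  rw [law, Pool.Agent.H595.Dens.famLaw]
  congr 1
  have e1 : 1 + √2 - 1 = √2 := by ring
  rw [e1]
  field_simp

theorem root : (1 + √2) ^ Fintype.card (Fin 2) = 2 * (1 + √2) + 1 := by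
  rw [Fintype.card_fin]
  have := Real.sq_sqrt (show (0 : ℝ) ≤ 2 by norm_num)
  linear_combination this

theorem law_high {w : ℝ} (hw : 3 ≤ w) : law w = 2 / w := by
  have hw0 : 0 < w := by linarith
  rw [law, max_eq_left]
  gcongr
  have h : 0 ≤ (w - 3) / √2 := by
    have := sqrt_two_gt
    apply div_nonneg <;> linarith
  have h2 : (3 - w) / √2 = -((w - 3) / √2) := by ring
  linarith

theorem law_one : law (1 + √2) = 1 := by
  have h := sqrt_two_gt
  have h2 := Real.sq_sqrt (show (0 : ℝ) ≤ 2 by norm_num)
  have e1 : (2 + (3 - (1 + √2)) / √2) / (1 + √2) = 1 := by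
    field_simp
    linear_combination -h2
  rw [law, e1, max_eq_right]
  rw [div_le_one (by linarith)]
  linarith

theorem law_lt_one {w : ℝ} (hw : 1 + √2 < w) : law w < 1 := by
  have h := sqrt_two_gt
  have h2 := Real.sq_sqrt (show (0 : ℝ) ≤ 2 by norm_num)
  rw [law_eq (by linarith)]
  apply Pool.Agent.H595.Dens.famLaw_lt_one (by linarith)
  have e1 : 2 + 1 / (1 + √2) = 1 + √2 := by
    field_simp
    linear_combination -h2
  rw [e1]
  exact hw

theorem upper {ξ : ℝ} (hξ : ExponentTwo ξ) {r s : ℚ} (hrs : r ≠ s) {t w : ℝ} (hw : 1 < w)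
    (h1 : Irrational (t + r * ξ)) (h2 : Irrational (t + s * ξ)) :
    lowerDensity (logScales (t + r * ξ) (t + s * ξ) w) ≤ law w := by
  have h := sqrt_two_gt
  rw [logScales_eq, law_eq (by linarith)]
  refine Pool.Agent.H595.Dens.fam_law (fun j => ?_) (Pool.Agent.H595.Dens.sep_add (co_inj hrs) hξ t) hw
    (by linarith) root
  fin_cases j
  · exact h1
  · exact h2

theorem expTwo_e : ExponentTwo (exp 1) :=
  Pool.Agent.H595.Dens.expTwo_of_linB Pool.Agent.H595.Dens.linB_e

theorem density_one {ξ : ℝ} {r s : ℚ} {t : ℝ} (h : ¬ (Irrational (t + r * ξ) ∧ Irrational (t + s * ξ)))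
    (w : ℝ) : lowerDensity (logScales (t + r * ξ) (t + s * ξ) w) = 1 := by
  rw [logScales_eq]
  rw [not_and_or] at h
  rcases h with h | h
  · exact Pool.Agent.H595.Dens.density_one_rat (θ := fun j => t + co r s j * ξ) (j := 0) h w
  · exact Pool.Agent.H595.Dens.density_one_rat (θ := fun j => t + co r s j * ξ) (j := 1) h w

theorem result :
    -- (1) the upper bound, if both numbers are irrational, and the density if one of them is rational
    (∀ ξ : ℝ, ExponentTwo ξ → ∀ r s : ℚ, r ≠ s → ∀ t w : ℝ, 1 < w →
      (Irrational (t + r * ξ) ∧ Irrational (t + s * ξ) → lowerDensity (logScales (t + r * ξ) (t + s * ξ) w) ≤ law w) ∧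
      (¬ (Irrational (t + r * ξ) ∧ Irrational (t + s * ξ)) →
        lowerDensity (logScales (t + r * ξ) (t + s * ξ) w) = 1)) ∧
    -- (2) the zero-one law for `π + e` and `π - e`
    (ExponentTwo (exp 1) ∧ ∀ w : ℝ, 1 + √2 < w → law w < 1 ∧
      ((Irrational (π + exp 1) ∧ Irrational (π - exp 1)) ↔
        lowerDensity (logScales (π + exp 1) (π - exp 1) w) ≤ law w) ∧
      (¬ (Irrational (π + exp 1) ∧ Irrational (π - exp 1)) ↔
        lowerDensity (logScales (π + exp 1) (π - exp 1) w) = 1)) ∧
    -- (3) the bound is best possible for `w ≥ 3`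
    (∀ ξ : ℝ, ExponentTwo ξ → ∀ r s : ℚ, r ≠ s → ∀ a b : ℝ, a < b → ∃ t : ℝ, a < t ∧ t < b ∧
      Irrational (t + r * ξ) ∧ Irrational (t + s * ξ) ∧
      ∀ w : ℝ, 3 ≤ w → lowerDensity (logScales (t + r * ξ) (t + s * ξ) w) = law w) ∧
    -- (4) the values of the bound
    ((∀ w : ℝ, 3 ≤ w → law w = 2 / w) ∧ law (1 + √2) = 1) := by
  refine ⟨fun ξ hξ r s hrs t w hw => ⟨fun h => upper hξ hrs hw h.1 h.2, fun h => density_one h w⟩,
    ⟨expTwo_e, fun w hw => ?_⟩,
    fun ξ hξ r s hrs a b hab => ?_, fun w hw => law_high hw, law_one⟩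
  · have h := sqrt_two_gt
    have e1 : π + exp 1 = π + ((1 : ℚ) : ℝ) * exp 1 := by norm_num
    have e2 : π - exp 1 = π + ((-1 : ℚ) : ℝ) * exp 1 := by push_cast; ring
    have hl := law_lt_one hw
    rw [e1, e2]
    refine ⟨hl, ⟨fun h3 => upper expTwo_e (by norm_num) (by linarith) h3.1 h3.2, fun h3 => ?_⟩,
      ⟨fun h3 => density_one h3 w, fun h3 h4 => ?_⟩⟩
    · by_contra h4
      rw [density_one h4 w] at h3
      linarith
    · have h5 := upper expTwo_e (r := 1) (s := -1) (by norm_num) (show 1 < w by linarith) h4.1 h4.2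
      rw [h3] at h5
      linarith
  · obtain ⟨t, h1, h2, h3, h4⟩ := Pool.Agent.H595.Dens.exists_add (co_inj hrs) hξ hab
    have h5 : Irrational (t + r * ξ) := h3 0
    have h6 : Irrational (t + s * ξ) := h3 1
    refine ⟨t, h1, h2, h5, h6, fun w hw => le_antisymm (upper hξ hrs (by linarith) h5 h6) ?_⟩
    rw [law_high hw, logScales_eq]
    exact h4 w (by linarith)

end Pool.Agent.Results.MP_363d4d_nt.DensityNearRational
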