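import Pool.Agent.H595.RF.RF3

set_option autoImplicit false

/-!
# The density of the scales at which `π` is near a value of a rational function at `e`

If `π + e` or `π - e` is rational then `π` is the value `R(e)` of a rational function `R` of degree one with rational
coefficients. More generally, let `ξ` be a real number at which integer polynomials are not smaller than at almost all
numbers, for instance `ξ = e`, and let `t` be any real number, for instance `t = π`. For a degree `m` and an exponent
`w` we consider the scales `X` at which `|t - R(ξ)| ≤ X ^ (-w)` for a rational function `R = P / Q` of degree at most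
`m` and height at most `X`; this means that `P, Q` are polynomials of degree at most `m` with integer coefficients of
absolute value at most `X`. If `t` is the value at `ξ` of a rational function of degree at most `m` then all large
scales have this property. We show: if not, then the lower logarithmic density of the set of these scales is at most
`(2 m + 1) / w` for all `w > 4 m + 2`. This zero-one law is best possible: for every `m`, in every interval there is a
number `t` such that `ξ` and `t` are algebraically independent and the density is equal to `(2 m + 1) / w` for all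
`w > 4 m + 2`, and at least `(2 m + 1) / w` for `w ≥ 2 m + 1`.

Method. The difference of two values `P / Q` and `P' / Q'` at `ξ` is `(P Q' - P' Q) / (Q Q')`, so it is at least
`(H H') ^ (-(2 m + 1) - ε)`, where `H` and `H'` are the heights; the upper bound follows by an argument on the growth
of the partial sums along the sequence of the best approximations. For the examples one starts with a rational function
`P / Q` in lowest terms of degree `m`. By Dirichlet's theorem, applied to the `2 m + 2` numbers `ξ ^ i`, `R(ξ) ξ ^ i`,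
`i ≤ m`, between which there is exactly one relation, there is a second one with a distance of at most a constant times
`H ^ (-(2 m + 1))`, where `H` is arbitrarily large and the height is at most a constant times `H`; adding a multiple of
`P / Q` one achieves that it is again in lowest terms and of degree `m`.
-/

namespace Pool.Agent.Results.MP_363d4d_nt.DensityNearRationalFunctions

open Filter MeasureTheory Real Polynomial

/-- nonzero integer polynomials are not smaller at `ξ` than at almost all numbers -/
def TypeOne (ξ : ℝ) : Prop := ∀ r : ℕ, ∀ ε : ℝ, 0 < ε → ∃ c : ℝ, 0 < c ∧ ∀ P : ℤ[X], P ≠ 0 → P.natDegree ≤ r →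
  ∀ H : ℝ, 1 ≤ H → (∀ i, |(P.coeff i : ℝ)| ≤ H) → c * H ^ (-(r + ε)) ≤ |aeval ξ P|

/-- `t` is the value at `ξ` of a rational function of degree at most `m` with rational coefficients -/
def IsValue (m : ℕ) (ξ t : ℝ) : Prop :=
  ∃ P Q : ℤ[X], Q ≠ 0 ∧ P.natDegree ≤ m ∧ Q.natDegree ≤ m ∧ t = aeval ξ P / aeval ξ Q

/-- at the scale `X` the number `t` is near the value at `ξ` of a rational function `P / Q` of degree at most `m`
with coefficients of absolute value at most `X` -/
def NearValue (m : ℕ) (ξ t w X : ℝ) : Prop :=
  ∃ P Q : ℤ[X], Q ≠ 0 ∧ P.natDegree ≤ m ∧ Q.natDegree ≤ m ∧ (∀ i, |(P.coeff i : ℝ)| ≤ X) ∧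
    (∀ i, |(Q.coeff i : ℝ)| ≤ X) ∧ |t - aeval ξ P / aeval ξ Q| ≤ X ^ (-w)

/-- the logarithms `x` of the scales at which `t` is near a value -/
def logScales (m : ℕ) (ξ t w : ℝ) : Set ℝ := {x | NearValue m ξ t w (exp x)}

/-- the lower density of a set of positive real numbers; for the set of the logarithms of the elements
of a set of scales it is the lower logarithmic density of the set of scales -/
noncomputable def lowerDensity (S : Set ℝ) : ℝ :=
  liminf (fun T : ℝ => (volume (S ∩ Set.Icc 0 T)).toReal / T) atTop

theorem measP {ξ : ℝ} (h : TypeOne ξ) (r : ℕ) (ε : ℝ) (hε : 0 < ε) :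
    ∃ c : ℝ, 0 < c ∧ Pool.Agent.W472.AC.MeasP ξ r (r + ε) c := by
  obtain ⟨c, hc, h1⟩ := h r ε hε
  refine ⟨c, hc, fun P h0 hd H hH hP => ?_⟩
  have h2 := h1 P h0 hd H hH hP
  rw [rpow_neg (by linarith), ← div_eq_mul_inv, div_le_iff₀ (by positivity)] at h2
  linarith

theorem typeOne_e : TypeOne (exp 1) := by
  intro r ε hε
  obtain ⟨c, hc, h⟩ := Pool.Agent.W472.AC.e_measP r ε hε
  refine ⟨c, hc, fun P h0 hd H hH hP => ?_⟩
  have h2 := h P h0 hd H hH hP
  rw [rpow_neg (by linarith), ← div_eq_mul_inv, div_le_iff₀ (by positivity)]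
  linarith

theorem isValue_iff (m : ℕ) (ξ t : ℝ) : IsValue m ξ t ↔ ¬ Pool.Agent.H595.RF.NotVal m ξ t := by
  rw [IsValue, Pool.Agent.H595.RF.NotVal]
  push Not
  rfl

theorem lowerDensity_eq (S : Set ℝ) : lowerDensity S = Pool.Agent.H595.Dens.lowerDensity S := rfl

theorem logScales_eq (m : ℕ) (ξ t w : ℝ) : logScales m ξ t w = Pool.Agent.H595.RF.rfScales m ξ t w := rfl

theorem upper {ξ : ℝ} (hξ : TypeOne ξ) {m : ℕ} {t w : ℝ} (hw : 4 * m + 2 < w) (h : ¬ IsValue m ξ t) :
    lowerDensity (logScales m ξ t w) ≤ (2 * m + 1) / w := by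
  rw [isValue_iff, not_not] at h
  have hm : (0 : ℝ) ≤ m := Nat.cast_nonneg m
  refine Pool.Agent.H595.RF.rf_upper (κ := 2 * m) (by positivity) (fun ε hε => ?_) h (by linarith)
  obtain ⟨c, hc, h1⟩ := measP hξ (2 * m) ε hε
  push_cast at h1
  exact ⟨c, hc, h1⟩

theorem value_one {ξ : ℝ} {m : ℕ} {t : ℝ} (w : ℝ) (h : IsValue m ξ t) : lowerDensity (logScales m ξ t w) = 1 := by
  rw [isValue_iff] at h
  exact Pool.Agent.H595.RF.density_one_rf h w

theorem law_lt_one {m : ℕ} {w : ℝ} (hw : 4 * m + 2 < w) : (2 * (m : ℝ) + 1) / w < 1 := by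
  have hm : (0 : ℝ) ≤ m := Nat.cast_nonneg m
  rw [div_lt_one (by linarith)]
  linarith

/-- a Möbius value -/
theorem isValue_one {ξ : ℝ} (p q a b : ℤ) (hq : q ≠ 0) (hb : b ≠ 0) {t : ℝ} (h : b * t + a * ξ = p / q) : IsValue 1 ξ t := by
  have hq' : (q : ℝ) ≠ 0 := by exact_mod_cast hq
  have hb' : (b : ℝ) ≠ 0 := by exact_mod_cast hb
  refine ⟨C p - C (q * a) * X, C (q * b), ?_, ?_, ?_, ?_⟩
  · exact C_ne_zero.2 (mul_ne_zero hq hb)
  · refine (natDegree_sub_le _ _).trans (max_le ?_ ?_)
    · rw [natDegree_C]
      exact Nat.zero_le _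
    · exact (natDegree_C_mul_le _ _).trans natDegree_X_le
  · rw [natDegree_C]
    exact Nat.zero_le _
  · rw [map_sub, map_mul, aeval_C, aeval_C, aeval_X, aeval_C]
    simp only [algebraMap_int_eq, eq_intCast]
    push_cast
    rw [eq_div_iff (mul_ne_zero hq' hb')]
    have h1 : (q : ℝ) * (b * t + a * ξ) = p := by rw [h]; field_simp
    linear_combination h1

/-- **The density of the scales at which `t` is near a value of a rational function at `ξ`.** The number `e` is of
type one. Let `ξ` be of type one. For all `m`, all real `t` and all `w > 4 m + 2` the lower logarithmic density of the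
scales at which `t` is near the value at `ξ` of a rational function of degree at most `m` is at most `(2 m + 1) / w`,
which is less than one, if and only if `t` is not such a value, and equal to one if and only if `t` is such a value. If
`π + e` or `π - e`, or any other combination of `π` and `e` with integer coefficients, the coefficient of `π` not zero,
is rational then `π` is such a value at `e`, with `m = 1`. For all `m` there is `t` in every interval such that `ξ` and
`t` are algebraically independent and the density is `(2 m + 1) / w` for all `w > 4 m + 2`, and at least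
`(2 m + 1) / w` for all `w ≥ 2 m + 1`. -/
theorem result :
    TypeOne (exp 1) ∧
    (∀ ξ : ℝ, TypeOne ξ → ∀ (m : ℕ) (t w : ℝ), 4 * m + 2 < w → (2 * (m : ℝ) + 1) / w < 1 ∧
      (lowerDensity (logScales m ξ t w) ≤ (2 * m + 1) / w ↔ ¬ IsValue m ξ t) ∧
      (lowerDensity (logScales m ξ t w) = 1 ↔ IsValue m ξ t)) ∧
    (∀ a b : ℤ, b ≠ 0 → ¬ Irrational (b * π + a * exp 1) → IsValue 1 (exp 1) π) ∧
    (∀ ξ : ℝ, TypeOne ξ → ∀ (m : ℕ) (a b : ℝ), a < b → ∃ t : ℝ, a < t ∧ t < b ∧
      AlgebraicIndependent ℚ ![ξ, t] ∧
      (∀ w : ℝ, 4 * m + 2 < w → lowerDensity (logScales m ξ t w) = (2 * m + 1) / w) ∧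
      (∀ w : ℝ, 2 * m + 1 ≤ w → (2 * m + 1) / w ≤ lowerDensity (logScales m ξ t w))) := by
  refine ⟨typeOne_e, fun ξ hξ m t w hw => ⟨law_lt_one hw, ?_, ?_⟩, fun a b hb h => ?_, fun ξ hξ m a b hab => ?_⟩
  · constructor
    · intro h1 h2
      rw [value_one w h2] at h1
      have := law_lt_one hw
      linarith
    · exact upper hξ hw
  · constructor
    · intro h1
      by_contra h2
      have h3 := upper hξ hw h2
      have := law_lt_one hw
      linarith
    · exact value_one w
  · rw [Irrational, not_not] at h
    obtain ⟨z, hz⟩ := h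
    refine isValue_one z.num z.den a b (by exact_mod_cast z.den_nz) hb ?_
    rw [← hz]
    exact_mod_cast (Rat.num_div_den z).symm
  · obtain ⟨t, h1, h2, h3, h4⟩ := Pool.Agent.H595.RF.exists_rf (ξ := ξ) (fun r => by
      obtain ⟨c, hc, h⟩ := measP hξ r 1 one_pos
      exact ⟨r + 1, c, by positivity, hc, h⟩) m hab
    have hind : AlgebraicIndependent ℚ ![(ξ : ℂ), (t : ℂ)] := (Pool.Agent.H595.Gel.algInd_iff _ _).2 h3
    have hnot : ¬ IsValue m ξ t := by
      rintro ⟨P, Q, hQ, hP1, hQ1, hv⟩
      refine h3 m 1 (Pool.Agent.H595.RF.bi P Q) (Pool.Agent.H595.RF.bi_ne hQ)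
        (Pool.Agent.H595.RF.bi_deg hP1 hQ1) (Pool.Agent.H595.RF.bi_natDegree P Q) ?_
      rw [Pool.Agent.H595.RF.val_bi, Complex.ofReal_eq_zero]
      have hQ0 : aeval ξ Q ≠ 0 := by
        intro h0
        obtain ⟨c, hc, h⟩ := measP hξ Q.natDegree 1 one_pos
        have h5 := h Q hQ le_rfl (Pool.Agent.H595.Alg.hgt Q) (by exact_mod_cast Pool.Agent.H595.Alg.one_le_hgt hQ)
          (Pool.Agent.H595.Alg.coeff_le_hgt Q)
        rw [h0, abs_zero, mul_zero] at h5
        linarith
      rw [hv]
      field_simp
      ring
    refine ⟨t, h1, h2, ?_, fun w hw => ?_, h4⟩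
    · have h5 : ![(ξ : ℂ), (t : ℂ)] = ((Algebra.ofId ℝ ℂ).restrictScalars ℚ) ∘ ![ξ, t] := by
        funext i
        fin_cases i <;> rfl
      rw [h5] at hind
      exact AlgebraicIndependent.of_comp _ hind
    · have hm : (0 : ℝ) ≤ m := Nat.cast_nonneg m
      exact le_antisymm (upper hξ hw hnot) (h4 w (by linarith))

end Pool.Agent.Results.MP_363d4d_nt.DensityNearRationalFunctions
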