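import Pool.Agent.H488.M.Gen

/-!
# Rational functions of an arbitrary number and of exponentials, at every scale

One of the numbers `π + e`, `π - e` is transcendental. More generally, let `t` be ANY complex number,
for instance `t = π`, and let `θ_1, …, θ_n` be numbers which have a measure of algebraic independence,
polynomial in the height (`HasMeasure`), for instance `θ_i = e^(α_i)` where the algebraic numbers
`α_i` are linearly independent over `ℚ`. Let `f_i = a_i / b_i` be rational functions in `n + 1`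
variables with integer coefficients whose gradients at the point `(t, θ_1, …, θ_n)` are nonzero and
pairwise not parallel (`Generic`). Then at most one of the numbers `f_i(t, θ_1, …, θ_n)` is
algebraic. For instance

* all the numbers `π + g(e^(α_1), …, e^(α_n))`, where `g` runs through polynomials no two of which
  differ by a constant (such as `π + e`, `π - e`), and
* all the numbers `π g(e^(α_1), …, e^(α_n))`, where no two of the polynomials `g` are proportional

form such families, for every `t` (`t ≠ 0`) instead of `π`. In general the functions `f_i` and `f_j`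
generate together no algebraic relation between the `θ`'s alone, as in the case of `t + θ_1` and
`t θ_2`, so the measures for the numbers `θ` cannot be applied to one number which is algebraic over
`ℚ(f_i, f_j)`.

We prove quantitative forms which hold at every scale.

* Joint measure: for nonzero integer polynomials `P`, `Q` in one variable of degree at most `d` and
  height at most `H`, `max (|P(f_i)|, |Q(f_j)|) ≥ c H^(-κ)`; the exponent `κ` is independent of `t`.
* The dichotomy of scales: a number is near at the scale `H` if `|P(f_i)| ≤ H^(-w)` for a nonzero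
  `P` of degree at most `d` and height at most `H`. Every large scale `H` at which `f_i` is near is
  followed by a scale `Z ≥ H` such that no other `f_j` is near between `H` and `Z`, and nothing is
  near between `Z` and `Z^A`, unless `f_i` is algebraic of degree at most `d`, and then no other
  `f_j` is near at any scale after `H`.
* The zero-one law: one of the numbers `f_i` is algebraic of degree at most `d` if and only if at all
  large scales at least one of them is near.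
* Digits: if the numbers `f_i` are real, then in every base and for every length `L` the digits of
  all of them, with at most one exception, satisfy no linear recurrence of order less than
  `c L - C`; `c` is independent of `t`, `C` of the base.
-/

set_option autoImplicit false

namespace Pool.Agent.Results.MP_363d4d_nt.RationalFunctionsAtEveryScale

open Polynomial

/-- the nonzero integer polynomials in the variables `σ`, of degree at most `d` in every variable,
with coefficients of absolute value at most `H` -/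
def MPoly (σ : Type) (d : ℕ) (H : ℝ) : Set (MvPolynomial σ ℤ) :=
  {P | P ≠ 0 ∧ (∀ i, P.degreeOf i ≤ d) ∧ ∀ m, |((P.coeff m : ℤ) : ℝ)| ≤ H}

/-- The numbers `x i` have a measure of algebraic independence, polynomial in the height for every
degree. -/
def HasMeasure {σ : Type} (x : σ → ℂ) : Prop :=
  ∀ d : ℕ, ∃ κ : ℕ, ∃ c : ℝ, 0 < c ∧ ∀ H : ℝ, 1 ≤ H → ∀ P ∈ MPoly σ d H,
    c / H ^ κ ≤ ‖MvPolynomial.aeval x P‖

/-- the nonzero integer polynomials in one variable, of degree at most `d`, with coefficients of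
absolute value at most `H` -/
def Poly (d : ℕ) (H : ℝ) : Set ℤ[X] :=
  {P | P ≠ 0 ∧ P.natDegree ≤ d ∧ ∀ k, |((P.coeff k : ℤ) : ℝ)| ≤ H}

/-- the value `P(t, θ)`; the variable `none` stands for `t` -/
noncomputable def val {σ : Type} (t : ℂ) (θ : σ → ℂ) (P : MvPolynomial (Option σ) ℤ) : ℂ :=
  MvPolynomial.aeval (fun o : Option σ => o.elim t θ) P

/-- the value of the rational function `a / b` at `(t, θ)` -/
noncomputable def frac {σ : Type} (t : ℂ) (θ : σ → ℂ) (a b : MvPolynomial (Option σ) ℤ) : ℂ :=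
  val t θ a / val t θ b

/-- the value at `(t, θ)` of `b² ∂(a / b) / ∂o` -/
noncomputable def grad {σ : Type} (t : ℂ) (θ : σ → ℂ) (a b : MvPolynomial (Option σ) ℤ)
    (o : Option σ) : ℂ :=
  val t θ (b * MvPolynomial.pderiv o a - a * MvPolynomial.pderiv o b)

/-- The rational functions `a i / b i` are defined at the point `(t, θ)`, and their gradients at this
point are nonzero and pairwise not parallel. -/
def Generic {σ : Type} {r : ℕ} (t : ℂ) (θ : σ → ℂ) (a b : Fin r → MvPolynomial (Option σ) ℤ) :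
    Prop :=
  (∀ i, val t θ (b i) ≠ 0 ∧ ∃ o, grad t θ (a i) (b i) o ≠ 0) ∧
    ∀ i j, i ≠ j → ∃ o o', grad t θ (a i) (b i) o * grad t θ (a j) (b j) o' ≠
      grad t θ (a j) (b j) o * grad t θ (a i) (b i) o'

/-- `u` is near at the scale `H` -/
def Near (d w : ℕ) (H : ℝ) (u : ℂ) : Prop := ∃ P ∈ Poly d H, ‖aeval u P‖ ≤ 1 / H ^ w

/-- `u` is algebraic of degree at most `d` -/
def Alg (d : ℕ) (u : ℂ) : Prop := ∃ P : ℤ[X], P ≠ 0 ∧ P.natDegree ≤ d ∧ aeval u P = 0

/-- the `i`-th digit of `x` after the point in base `b` -/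
noncomputable def digit (b : ℕ) (x : ℝ) (i : ℕ) : ℤ := ⌊x * (b : ℝ) ^ i⌋ % (b : ℤ)

/-- the least order `m` of a linear recurrence
`s_(i+m) = c_0 s_i + … + c_(m-1) s_(i+m-1)`, `1 ≤ i ≤ L - m`, with rational coefficients, satisfied
by the first `L` digits `s_1, …, s_L` of `x` in base `b` -/
noncomputable def complexity (b : ℕ) (x : ℝ) (L : ℕ) : ℕ :=
  sInf {m | ∃ c : ℕ → ℚ, ∀ i : ℕ, 1 ≤ i → i + m ≤ L →
    (digit b x (i + m) : ℚ) = ∑ j ∈ Finset.range m, c j * (digit b x (i + j) : ℚ)}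

/-- the polynomial `T + g(X)` -/
noncomputable def plus {σ : Type} (g : MvPolynomial σ ℤ) : MvPolynomial (Option σ) ℤ :=
  MvPolynomial.X none + MvPolynomial.rename some g

/-- the polynomial `T g(X)` -/
noncomputable def times {σ : Type} (g : MvPolynomial σ ℤ) : MvPolynomial (Option σ) ℤ :=
  MvPolynomial.X none * MvPolynomial.rename some g

open Pool.Agent.H488.M (Bd Meas Nr ok1 pt)

lemma hasMeasure_iff {σ : Type} (x : σ → ℂ) : HasMeasure x ↔ Meas x := by
  constructor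
  · intro h d
    obtain ⟨κ, c, hc, h⟩ := h d
    refine ⟨κ, c, hc, fun P hP H hH hB => ?_⟩
    have h1 := h H hH P ⟨hP, hB.1, hB.2⟩
    rwa [div_le_iff₀ (by positivity), mul_comm] at h1
  · intro h d
    obtain ⟨κ, c, hc, h⟩ := h d
    refine ⟨κ, c, hc, fun H hH P hP => ?_⟩
    have h1 := h P hP.1 H hH ⟨hP.2.1, hP.2.2⟩
    rwa [div_le_iff₀ (by positivity), mul_comm]

lemma val_eq {σ : Type} (t : ℂ) (θ : σ → ℂ) (P : MvPolynomial (Option σ) ℤ) :
    val t θ P = Pool.Agent.H488.M.vl (pt t θ) P := rfl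

lemma generic_iff {σ : Type} {r : ℕ} (t : ℂ) (θ : σ → ℂ)
    (a b : Fin r → MvPolynomial (Option σ) ℤ) :
    Generic t θ a b ↔ Pool.Agent.H488.M.Generic a b (pt t θ) := by
  unfold Generic Pool.Agent.H488.M.Generic
  refine and_congr Iff.rfl (forall_congr' fun i => forall_congr' fun j => imp_congr Iff.rfl
    (exists_congr fun o => exists_congr fun o' => ?_))
  have e1 : Pool.Agent.H488.M.vl (pt t θ)
      (Pool.Agent.H488.M.Jc (a i) (b i) (a j) (b j) o o') =
      grad t θ (a i) (b i) o * grad t θ (a j) (b j) o' -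
        grad t θ (a j) (b j) o * grad t θ (a i) (b i) o' := by
    have h1 : ∀ k o, MvPolynomial.aeval (pt t θ) (Pool.Agent.H488.M.Wr (a k) (b k) o) =
      grad t θ (a k) (b k) o := fun _ _ => rfl
    rw [Pool.Agent.H488.M.Jc, Pool.Agent.H488.M.vl, map_sub, map_mul, map_mul, h1, h1, h1, h1]
    ring
  rw [e1, ne_eq, ne_eq, sub_eq_zero]

lemma nr_iff {σ : Type} {r : ℕ} (t : ℂ) (θ : σ → ℂ) (a b : Fin r → MvPolynomial (Option σ) ℤ)
    (d w : ℕ) (H : ℝ) (i : Fin r) :
    Nr (ok1 d) (fun i P => aeval (Pool.Agent.H488.M.vl (pt t θ) (a i) /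
      Pool.Agent.H488.M.vl (pt t θ) (b i)) P) w H i ↔ Near d w H (frac t θ (a i) (b i)) := Iff.rfl

/-- the joint measure -/
theorem joint {σ : Type} [Fintype σ] (θ : σ → ℂ) (hθ : HasMeasure θ) (r : ℕ)
    (a b : Fin r → MvPolynomial (Option σ) ℤ) (d : ℕ) : ∃ κ : ℕ, ∀ t : ℂ, Generic t θ a b →
      ∃ c : ℝ, 0 < c ∧ ∀ i j, i ≠ j → ∀ H : ℝ, 1 ≤ H → ∀ P ∈ Poly d H, ∀ Q ∈ Poly d H,
        c / H ^ κ ≤ max ‖aeval (frac t θ (a i) (b i)) P‖ ‖aeval (frac t θ (a j) (b j)) Q‖ := by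
  obtain ⟨κ, w, h⟩ := Pool.Agent.H488.M.rf_main θ ((hasMeasure_iff θ).1 hθ) a b d 2
  refine ⟨κ, fun t ht => ?_⟩
  obtain ⟨⟨c, hc, h1⟩, -⟩ := h t ((generic_iff t θ a b).1 ht)
  refine ⟨c, hc, fun i j hij H hH P hP Q hQ => ?_⟩
  rw [div_le_iff₀ (by positivity), mul_comm]
  exact h1 i j hij P Q H hH hP hQ

/-- the dichotomy and the zero-one law -/
theorem dich {σ : Type} [Fintype σ] (θ : σ → ℂ) (hθ : HasMeasure θ) (r : ℕ)
    (a b : Fin r → MvPolynomial (Option σ) ℤ) (d A : ℕ) (hA : 2 ≤ A) : ∃ w : ℕ, ∀ t : ℂ,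
      Generic t θ a b → (∃ H₀ : ℝ, ∀ i, ∀ H : ℝ, H₀ ≤ H → Near d w H (frac t θ (a i) (b i)) →
        (Alg d (frac t θ (a i) (b i)) ∧ ∀ Y : ℝ, H ≤ Y → ∀ j, j ≠ i →
          ¬ Near d w Y (frac t θ (a j) (b j))) ∨
        ∃ Z : ℝ, H ≤ Z ∧
          (∀ Y : ℝ, H ≤ Y → Y ≤ Z → ∀ j, j ≠ i → ¬ Near d w Y (frac t θ (a j) (b j))) ∧
          ∀ Y : ℝ, Z < Y → Y ≤ Z ^ A → ∀ j, ¬ Near d w Y (frac t θ (a j) (b j))) ∧
      ((∃ i, Alg d (frac t θ (a i) (b i))) ↔
        ∃ H₁ : ℝ, ∀ H : ℝ, H₁ ≤ H → ∃ i, Near d w H (frac t θ (a i) (b i))) := by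
  obtain ⟨κ, w, h⟩ := Pool.Agent.H488.M.rf_main θ ((hasMeasure_iff θ).1 hθ) a b d A
  refine ⟨w, fun t ht => ?_⟩
  obtain ⟨-, H₀, hH₀, h2⟩ := h t ((generic_iff t θ a b).1 ht)
  have hd : ∀ i, ∀ H : ℝ, H₀ ≤ H → Near d w H (frac t θ (a i) (b i)) →
        (Alg d (frac t θ (a i) (b i)) ∧ ∀ Y : ℝ, H ≤ Y → ∀ j, j ≠ i →
          ¬ Near d w Y (frac t θ (a j) (b j))) ∨
        ∃ Z : ℝ, H ≤ Z ∧
          (∀ Y : ℝ, H ≤ Y → Y ≤ Z → ∀ j, j ≠ i → ¬ Near d w Y (frac t θ (a j) (b j))) ∧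
          ∀ Y : ℝ, Z < Y → Y ≤ Z ^ A → ∀ j, ¬ Near d w Y (frac t θ (a j) (b j)) := by
    intro i H hH hn
    rcases h2 i H hH ((nr_iff t θ a b d w H i).2 hn) with ⟨⟨P, hP, hP0⟩, h3⟩ | h3
    · exact Or.inl ⟨⟨P, hP.1, hP.2.1, hP0⟩, h3⟩
    · exact Or.inr h3
  refine ⟨⟨H₀, hd⟩, ?_, ?_⟩
  · rintro ⟨i, P, hP, hPd, hPv⟩
    obtain ⟨h₁, hh₁⟩ : ∃ h₁ : ℝ, h₁ = ∑ s ∈ P.support, |((P.coeff s : ℤ) : ℝ)| := ⟨_, rfl⟩
    refine ⟨max 1 h₁, fun H hH => ⟨i, P, ⟨hP, hPd, fun s => ?_⟩, ?_⟩⟩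
    · refine le_trans ?_ ((le_max_right _ _).trans hH)
      rw [hh₁]
      by_cases hs : s ∈ P.support
      · exact Finset.single_le_sum (f := fun s => |((P.coeff s : ℤ) : ℝ)|)
          (fun _ _ => abs_nonneg _) hs
      · rw [notMem_support_iff.1 hs, Int.cast_zero, abs_zero]
        exact Finset.sum_nonneg fun _ _ => abs_nonneg _
    · rw [hPv, norm_zero]
      have : 0 < H := by linarith [(le_max_left 1 h₁).trans hH]
      positivity
  · rintro ⟨H₁, h1⟩
    obtain ⟨H, hH⟩ : ∃ H : ℝ, H = max (max H₀ H₁) 2 := ⟨_, rfl⟩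
    obtain ⟨i, hn⟩ := h1 H (by rw [hH]; exact (le_max_right _ _).trans (le_max_left _ _))
    rcases hd i H (by rw [hH]; exact (le_max_left _ _).trans (le_max_left _ _)) hn with
      h2 | ⟨Z, hZ, -, h3⟩
    · exact ⟨i, h2.1⟩
    · exfalso
      have hH2 : 2 ≤ H := by rw [hH]; exact le_max_right _ _
      have hZ2 : 2 ≤ Z := hH2.trans hZ
      have hlt : Z < Z ^ A := by
        calc Z < Z ^ 2 := by nlinarith
          _ ≤ Z ^ A := pow_le_pow_right₀ (by linarith) hA
      have hHZ : H₁ ≤ Z ^ A := by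
        have : H₁ ≤ H := by rw [hH]; exact (le_max_right _ _).trans (le_max_left _ _)
        linarith
      obtain ⟨j, hn'⟩ := h1 (Z ^ A) hHZ
      exact h3 _ hlt le_rfl j hn'

/-- the digits -/
theorem digits {σ : Type} [Fintype σ] (θ : σ → ℂ) (hθ : HasMeasure θ) (r : ℕ)
    (a b : Fin r → MvPolynomial (Option σ) ℤ) : ∃ c : ℝ, 0 < c ∧ ∀ t : ℂ, Generic t θ a b →
      ∀ x : Fin r → ℝ, (∀ i, (x i : ℂ) = frac t θ (a i) (b i)) → ∃ C : ℝ, ∀ g : ℕ, 2 ≤ g →
        ∀ L : ℕ, ∀ i j, i ≠ j →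
          c * L - C ≤ max (complexity g (x i) L : ℝ) (complexity g (x j) L) := by
  obtain ⟨κ, h⟩ := joint θ hθ r a b 1
  have hκ : (0 : ℝ) ≤ κ := Nat.cast_nonneg κ
  refine ⟨1 / (4 * ((κ : ℝ) + 2)), by positivity, fun t ht x hx => ?_⟩
  obtain ⟨c, hc, h1⟩ := h t ht
  have h2 : ∀ p : Fin r × Fin r, ∃ K : ℝ, p.1 ≠ p.2 → ∀ g : ℕ, 2 ≤ g → ∀ L : ℕ,
      (L : ℝ) ≤ 2 * ((κ : ℝ) + 2) * (complexity g (x p.1) L + complexity g (x p.2) L) + K := by
    intro p
    by_cases hp : p.1 = p.2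
    · exact ⟨0, fun h => absurd hp h⟩
    · obtain ⟨K, hK⟩ := Pool.Agent.H488.M.two_digits (x p.1) (x p.2) κ c hc
        (fun P Q H hH hP hQ => by
          have h3 := h1 p.1 p.2 hp H hH P hP Q hQ
          rw [div_le_iff₀ (by positivity), mul_comm, ← hx p.1, ← hx p.2] at h3
          exact h3)
      exact ⟨K, fun _ => hK⟩
  choose K hK using h2
  obtain ⟨C, hC⟩ : ∃ C : ℝ, C = ∑ p, |K p| := ⟨_, rfl⟩
  refine ⟨C, fun g hg L i j hij => ?_⟩
  have h3 := hK (i, j) hij g hg L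
  simp only at h3
  have h4 : |K (i, j)| ≤ C := by
    rw [hC]
    exact Finset.single_le_sum (f := fun p => |K p|) (fun _ _ => abs_nonneg _)
      (Finset.mem_univ (i, j))
  have h5 := le_abs_self (K (i, j))
  have h6 := le_max_left (complexity g (x i) L : ℝ) (complexity g (x j) L)
  have h7 := le_max_right (complexity g (x i) L : ℝ) (complexity g (x j) L)
  obtain ⟨m, hm⟩ : ∃ m : ℝ, m = max (complexity g (x i) L : ℝ) (complexity g (x j) L) := ⟨_, rfl⟩
  rw [← hm] at h6 h7 ⊢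
  have hC0 : 0 ≤ C := (abs_nonneg _).trans h4
  have h8 : (L : ℝ) ≤ 4 * ((κ : ℝ) + 2) * m + C := by nlinarith
  have h9 : 1 / (4 * ((κ : ℝ) + 2)) * L ≤ 1 / (4 * ((κ : ℝ) + 2)) * (4 * ((κ : ℝ) + 2) * m + C) :=
    mul_le_mul_of_nonneg_left h8 (by positivity)
  have h10 : 1 / (4 * ((κ : ℝ) + 2)) * (4 * ((κ : ℝ) + 2) * m + C) =
      m + C / (4 * ((κ : ℝ) + 2)) := by
    field_simp
  have h11 : C / (4 * ((κ : ℝ) + 2)) ≤ C := div_le_self hC0 (by linarith)
  linarith

/-- **Rational functions of an arbitrary number and of exponentials.** -/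
theorem result :
    -- (1) numbers with a measure of algebraic independence
    (∀ (n : ℕ) (α : Fin n → ℂ), (∀ i, IsAlgebraic ℚ (α i)) → LinearIndependent ℚ α →
      HasMeasure fun i => Complex.exp (α i)) ∧
    (∀ (n : ℕ) (β : Fin n → ℂ), (∀ i, IsAlgebraic ℚ (β i)) →
      LinearIndependent ℚ (Sum.elim β fun i => (starRingEnd ℂ) (β i)) →
      HasMeasure (Sum.elim (fun _ : Fin 1 => (Real.pi : ℂ)) fun i => Complex.exp (β i))) ∧
    (∀ (σ : Type) [Fintype σ] (θ : σ → ℂ), HasMeasure θ →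
      (∀ (r : ℕ) (a b : Fin r → MvPolynomial (Option σ) ℤ),
        (∀ d : ℕ,
          -- (2) the joint measure
          (∃ κ : ℕ, ∀ t : ℂ, Generic t θ a b → ∃ c : ℝ, 0 < c ∧ ∀ i j, i ≠ j → ∀ H : ℝ, 1 ≤ H →
            ∀ P ∈ Poly d H, ∀ Q ∈ Poly d H, c / H ^ κ ≤
              max ‖aeval (frac t θ (a i) (b i)) P‖ ‖aeval (frac t θ (a j) (b j)) Q‖) ∧
          -- (3) the dichotomy of scales and the zero-one law
          ∀ A : ℕ, 2 ≤ A → ∃ w : ℕ, ∀ t : ℂ, Generic t θ a b →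
            (∃ H₀ : ℝ, ∀ i, ∀ H : ℝ, H₀ ≤ H → Near d w H (frac t θ (a i) (b i)) →
              (Alg d (frac t θ (a i) (b i)) ∧ ∀ Y : ℝ, H ≤ Y → ∀ j, j ≠ i →
                ¬ Near d w Y (frac t θ (a j) (b j))) ∨
              ∃ Z : ℝ, H ≤ Z ∧
                (∀ Y : ℝ, H ≤ Y → Y ≤ Z → ∀ j, j ≠ i → ¬ Near d w Y (frac t θ (a j) (b j))) ∧
                ∀ Y : ℝ, Z < Y → Y ≤ Z ^ A → ∀ j, ¬ Near d w Y (frac t θ (a j) (b j))) ∧
            ((∃ i, Alg d (frac t θ (a i) (b i))) ↔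
              ∃ H₁ : ℝ, ∀ H : ℝ, H₁ ≤ H → ∃ i, Near d w H (frac t θ (a i) (b i)))) ∧
        -- (4) the digits
        ∃ c : ℝ, 0 < c ∧ ∀ t : ℂ, Generic t θ a b → ∀ x : Fin r → ℝ,
          (∀ i, (x i : ℂ) = frac t θ (a i) (b i)) → ∃ C : ℝ, ∀ g : ℕ, 2 ≤ g → ∀ L : ℕ,
            ∀ i j, i ≠ j → c * L - C ≤ max (complexity g (x i) L : ℝ) (complexity g (x j) L)) ∧
      -- (5) two kinds of generic families
      (∀ (r : ℕ) (g : Fin r → MvPolynomial σ ℤ),
        (∀ i j, i ≠ j → ∀ z : ℤ, g i - g j ≠ MvPolynomial.C z) → ∀ t : ℂ,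
        Generic t θ (fun i => plus (g i)) (fun _ => 1) ∧
          ∀ i, frac t θ (plus (g i)) 1 = t + MvPolynomial.aeval θ (g i)) ∧
      (∀ (r : ℕ) (g : Fin r → MvPolynomial σ ℤ), (∀ i, g i ≠ 0) →
        (∀ i j, i ≠ j → ∀ u v : ℤ, u ≠ 0 → v ≠ 0 →
          MvPolynomial.C u * g i ≠ MvPolynomial.C v * g j) → ∀ t : ℂ, t ≠ 0 →
        Generic t θ (fun i => times (g i)) (fun _ => 1) ∧
          ∀ i, frac t θ (times (g i)) 1 = t * MvPolynomial.aeval θ (g i))) := by
  refine ⟨fun n α hα hli => (hasMeasure_iff _).2 (Pool.Agent.H488.M.meas_exp α hα hli),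
    fun n β hβ hli => (hasMeasure_iff _).2 (Pool.Agent.H488.M.meas_pi_exp β hβ hli),
    fun σ _ θ hθ => ⟨fun r a b => ⟨fun d => ⟨joint θ hθ r a b d, fun A hA =>
      dich θ hθ r a b d A hA⟩, digits θ hθ r a b⟩, fun r g hg t => ⟨?_, fun i => ?_⟩,
      fun r g hg0 hg t ht => ⟨?_, fun i => ?_⟩⟩⟩
  · exact (generic_iff _ _ _ _).2
      (Pool.Agent.H488.M.generic_add θ ((hasMeasure_iff θ).1 hθ) g hg t)
  · rw [frac, val_eq, val_eq, Pool.Agent.H488.M.vl_one, div_one, plus, Pool.Agent.H488.M.vl,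
      map_add, MvPolynomial.aeval_X]
    exact congrArg (t + ·) (Pool.Agent.H488.M.vl_rename t θ (g i))
  · exact (generic_iff _ _ _ _).2
      (Pool.Agent.H488.M.generic_mul θ ((hasMeasure_iff θ).1 hθ) g hg0 hg t ht)
  · rw [frac, val_eq, val_eq, Pool.Agent.H488.M.vl_one, div_one, times, Pool.Agent.H488.M.vl,
      map_mul, MvPolynomial.aeval_X]
    exact congrArg (t * ·) (Pool.Agent.H488.M.vl_rename t θ (g i))

end Pool.Agent.Results.MP_363d4d_nt.RationalFunctionsAtEveryScale
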