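import Pool.Agent.H596.U.Lin

/-!
# `π + e` and `π - e` are both irrational if and only if they are simultaneously badly approximable
# in arbitrarily long windows of scales; sums of exponentials with algebraic coefficients

`AlgH D H` is the set of the algebraic numbers of degree at most `D` and height at most `H`; for
`D = 1` these are the fractions `p / q` with `|p|, |q| ≤ H`. Let `α_1, …, α_n` be distinct nonzero
algebraic numbers (for instance `n = 1`, `α_1 = 1`). The sums `s(v) = v_0 + ∑ v_i e^(α_i)` with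
coefficients `v_i` in `AlgH D H` are called the sums of height `H`.

(1) For every `D` there is `k` such that different sums of height `H` have a distance larger than
    `H^(-k)`, for all scales `H ≥ 2`. So for EVERY complex number `t`, for instance `t = π`, at
    each scale at most one sum of height `H` is within `H^(-k)` of `t`; in particular at most one
    of all the numbers `π + ∑ ρ_i e^(α_i)`, `ρ_i` in `AlgH D H`, is within `H^(-k)` of an element
    of `AlgH D H`, and in this case `∑ ρ_i e^(α_i)` is a real number if the set of the `α_i` is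
    stable under complex conjugation.
(2) If `t` is not a sum `s(v)` with algebraic coefficients, then for all `D`, `A` there are `k` and
    arbitrarily large `X` such that NO sum of height `H` is within `H^(-k)` of `t`, for all scales
    `H` from `X` to `X^A`.
(3) Let `θ_j = t + ∑ ρ_ji e^(α_i)` be finitely many numbers, with fixed algebraic `ρ_ji` and any
    complex number `t`. For every `D` the following are equivalent:
    (a) none of the `θ_j` is algebraic of degree at most `D`;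
    (b) for some `k` there are arbitrarily large `H` such that none of the `θ_j` is within
        `H^(-k)` of an element of `AlgH D H`;
    (c) for all `A` there are `k` and arbitrarily large `X` such that none of the `θ_j` is within
        `H^(-k)` of an element of `AlgH D H`, for all `H` from `X` to `X^A`.
    (For one number this is a known criterion; here it is for all the numbers at the same scales.)
(4) So `π + e` and `π - e` are BOTH irrational (the positive answer to Q1 and Q2) if and only if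
    for some `k` there are arbitrarily large `H` such that `|π + e - p / q| > H^(-k)` and
    `|π - e - p / q| > H^(-k)` for all `p`, `q ≠ 0` with `|p|, |q| ≤ H`, and if and only if this
    holds on arbitrarily long windows of scales.
-/

set_option autoImplicit false

namespace Pool.Agent.Results.MP_363d4d_nt.SimultaneousWindows

open Polynomial

/-- the algebraic numbers of degree at most `D` and height at most `H` -/
def AlgH (D : ℕ) (H : ℝ) : Set ℂ :=
  {ρ | ∃ R : ℤ[X], R ≠ 0 ∧ R.natDegree ≤ D ∧ (∀ j, |((R.coeff j : ℤ) : ℝ)| ≤ H) ∧ aeval ρ R = 0}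

/-- the sum `v_0 + ∑ v_i e^(α_i)`; the index `none` stands for `0` -/
noncomputable def sum {n : ℕ} (α : Fin n → ℂ) (v : Option (Fin n) → ℂ) : ℂ :=
  v none + ∑ i, v (some i) * Complex.exp (α i)

lemma sum_eq {n : ℕ} (α : Fin n → ℂ) (v : Option (Fin n) → ℂ) : sum α v = H596.U.esum α v := rfl

lemma algH_eq (D : ℕ) (H : ℝ) : AlgH D H = H596.U.AlgH D H := rfl

lemma mono {D D' : ℕ} {H H' : ℝ} (hD : D ≤ D') (hH : H ≤ H') {ρ : ℂ} (hρ : ρ ∈ AlgH D H) :
    ρ ∈ AlgH D' H' := by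
  obtain ⟨R, h1, h2, h3, h4⟩ := hρ
  exact ⟨R, h1, h2.trans hD, fun j => (h3 j).trans hH, h4⟩

lemma zero_mem {D : ℕ} {H : ℝ} (hH : 1 ≤ H) (hD : 1 ≤ D) : (0 : ℂ) ∈ AlgH D H := by
  refine ⟨X, X_ne_zero, natDegree_X_le.trans hD, fun j => ?_, by simp⟩
  rw [coeff_X]
  split_ifs <;> simp
  · exact hH
  · linarith

lemma exists_mem {ρ : ℂ} (hρ : IsAlgebraic ℚ ρ) : ∃ D : ℕ, ∃ H : ℝ, ρ ∈ AlgH D H := by
  have h1 : IsAlgebraic ℤ ρ := (IsFractionRing.isAlgebraic_iff ℤ ℚ ℂ).2 hρ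
  obtain ⟨R, h2, h3⟩ := h1
  refine ⟨R.natDegree, ∑ j ∈ R.support, |((R.coeff j : ℤ) : ℝ)|, R, h2, le_rfl, fun j => ?_, h3⟩
  by_cases hj : j ∈ R.support
  · exact Finset.single_le_sum (f := fun j => |((R.coeff j : ℤ) : ℝ)|) (fun _ _ => abs_nonneg _) hj
  · rw [notMem_support_iff.1 hj]
    simpa using Finset.sum_nonneg fun i (_ : i ∈ R.support) => abs_nonneg ((R.coeff i : ℤ) : ℝ)

lemma exists_mem_all {ι : Type*} [Finite ι] (ρ : ι → ℂ) (hρ : ∀ i, IsAlgebraic ℚ (ρ i)) :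
    ∃ D : ℕ, ∃ H₀ : ℝ, ∀ i, ρ i ∈ AlgH D H₀ := by
  have := Fintype.ofFinite ι
  choose D H h using fun i => exists_mem (hρ i)
  refine ⟨Finset.univ.sup D, ∑ i, |H i|, fun i => mono (Finset.le_sup (Finset.mem_univ i)) ?_ (h i)⟩
  exact (le_abs_self _).trans
    (Finset.single_le_sum (f := fun i => |H i|) (fun _ _ => abs_nonneg _) (Finset.mem_univ i))

/-- (3), from (a) to (c) -/
theorem family {n m : ℕ} (α : Fin n → ℂ) (hα : ∀ i, IsAlgebraic ℚ (α i))
    (h0 : ∀ i, α i ≠ 0) (hinj : Function.Injective α) (ρ : Fin m → Fin n → ℂ)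
    (hρ : ∀ j i, IsAlgebraic ℚ (ρ j i)) (t : ℂ) (D : ℕ)
    (ha : ∀ j H, t + ∑ i, ρ j i * Complex.exp (α i) ∉ AlgH D H) (A : ℕ) :
    ∃ k : ℕ, ∀ X₀ : ℝ, ∃ X : ℝ, X₀ ≤ X ∧ 2 ≤ X ∧ ∀ H : ℝ, X ≤ H → H ≤ X ^ A →
      ∀ j, ∀ ξ ∈ AlgH D H, 1 / H ^ k < ‖t + ∑ i, ρ j i * Complex.exp (α i) - ξ‖ := by
  classical
  by_cases ht : ∃ v : Option (Fin n) → ℂ, (∀ o, IsAlgebraic ℚ (v o)) ∧ sum α v = t
  · -- `t` is a sum: all the numbers are good at all large scales
    obtain ⟨v, hv, hvt⟩ := ht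
    let u : Fin m → Option (Fin n) → ℂ := fun j o => v o + o.elim 0 (ρ j)
    have hu : ∀ j o, IsAlgebraic ℚ (u j o) := by
      rintro j (_ | i)
      · exact (hv none).add isAlgebraic_zero
      · exact (hv (some i)).add (hρ j i)
    obtain ⟨D', H₀, hDH⟩ := exists_mem_all (fun p : Fin m × Option (Fin n) => u p.1 p.2)
      fun p => hu p.1 p.2
    obtain ⟨k, hk⟩ := H596.U.esum_separated α hα h0 hinj (max 1 (max D D'))
    refine ⟨k, fun X₀ => ⟨max X₀ (max 2 H₀), le_max_left _ _,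
      (le_max_left _ _).trans (le_max_right _ _), fun H hX _ j ξ hξ => ?_⟩⟩
    have hH2 : 2 ≤ H := ((le_max_left _ _).trans (le_max_right _ _)).trans hX
    have hH0 : H₀ ≤ H := ((le_max_right _ _).trans (le_max_right _ _)).trans hX
    let w : Option (Fin n) → ℂ := fun o => o.elim ξ fun _ => 0
    have hsu : sum α (u j) = t + ∑ i, ρ j i * Complex.exp (α i) := by
      rw [← hvt]
      simp only [sum, u, Option.elim_none, Option.elim_some, add_mul, Finset.sum_add_distrib]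
      ring
    have hsw : sum α w = ξ := by
      simp [sum, w]
    have h1 := hk H hH2 (u j) w (fun o => mono
        ((le_max_right D D').trans (le_max_right _ _)) hH0 (hDH (j, o))) (by
        rintro (_ | i)
        · exact mono ((le_max_left D D').trans (le_max_right _ _)) le_rfl hξ
        · exact zero_mem (by linarith) (le_max_left _ _)) (by
        intro huw
        apply ha j H
        rw [← hsu, huw, hsw]
        exact hξ)
    rw [← sum_eq, ← sum_eq, hsu, hsw] at h1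
    exact h1
  · push Not at ht
    obtain ⟨D', H₀, hDH⟩ := exists_mem_all (fun p : Fin m × Fin n => -ρ p.1 p.2)
      fun p => (hρ p.1 p.2).neg
    obtain ⟨k, hk⟩ := H596.U.esum_windows α hα h0 hinj t (fun v hv => ht v hv) (max D D') A
    refine ⟨k, fun X₀ => ?_⟩
    obtain ⟨X, h1, h2, h3⟩ := hk (max X₀ H₀)
    refine ⟨X, (le_max_left _ _).trans h1, h2, fun H hX hXA j ξ hξ => ?_⟩
    have h4 := h3 H hX hXA (fun o => o.elim ξ fun i => -ρ j i) (by
      rintro (_ | i)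
      · exact mono (le_max_left _ _) le_rfl hξ
      · exact mono (le_max_right _ _) (((le_max_right _ _).trans h1).trans hX) (hDH (j, i)))
    have h5 : t - H596.U.esum α (fun o => o.elim ξ fun i => -ρ j i) =
        t + ∑ i, ρ j i * Complex.exp (α i) - ξ := by
      simp only [H596.U.esum, Option.elim_none, Option.elim_some, neg_mul, Finset.sum_neg_distrib]
      ring
    rwa [h5] at h4

lemma algH_one_iff (H : ℝ) (z : ℂ) :
    z ∈ AlgH 1 H ↔ ∃ p q : ℤ, q ≠ 0 ∧ |(p : ℝ)| ≤ H ∧ |(q : ℝ)| ≤ H ∧ z = p / q := by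
  constructor
  · rintro ⟨R, h1, h2, h3, h4⟩
    have hR : R = C (R.coeff 1) * X + C (R.coeff 0) := eq_X_add_C_of_natDegree_le_one h2
    have hne : R.coeff 1 ≠ 0 := by
      intro h5
      rw [h5, C_0, zero_mul, zero_add] at hR
      rw [hR, aeval_C] at h4
      apply h1
      rw [hR]
      have h6 : ((R.coeff 0 : ℤ) : ℂ) = 0 := by simpa using h4
      have h7 : R.coeff 0 = 0 := by exact_mod_cast h6
      rw [h7, C_0]
    refine ⟨-R.coeff 0, R.coeff 1, hne, ?_, h3 1, ?_⟩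
    · rw [Int.cast_neg, abs_neg]
      exact h3 0
    · rw [hR] at h4
      rw [map_add, map_mul, aeval_C, aeval_C, aeval_X] at h4
      have hne' : ((R.coeff 1 : ℤ) : ℂ) ≠ 0 := by exact_mod_cast hne
      have h5 : ((R.coeff 1 : ℤ) : ℂ) * z + ((R.coeff 0 : ℤ) : ℂ) = 0 := by simpa using h4
      rw [eq_div_iff hne', Int.cast_neg]
      linear_combination h5
  · rintro ⟨p, q, hq, hp, hqH, rfl⟩
    have hq' : (q : ℂ) ≠ 0 := by exact_mod_cast hq
    refine ⟨C q * X + C (-p), fun h => hq ?_, natDegree_linear_le, fun j => ?_, ?_⟩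
    · have h1 := congrArg (fun R : ℤ[X] => R.coeff 1) h
      change (C q * X + C (-p) : ℤ[X]).coeff 1 = (0 : ℤ[X]).coeff 1 at h1
      rwa [coeff_add, coeff_C_mul, coeff_X_one, coeff_C_succ, mul_one, add_zero, coeff_zero] at h1
    · rcases j with _ | _ | j
      · have : (C q * X + C (-p) : ℤ[X]).coeff 0 = -p := by
          rw [coeff_add, coeff_C_mul, coeff_X_zero, coeff_C_zero, mul_zero, zero_add]
        rw [this, Int.cast_neg, abs_neg]
        exact hp
      · have : (C q * X + C (-p) : ℤ[X]).coeff (0 + 1) = q := by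
          rw [coeff_add, coeff_C_mul, zero_add, coeff_X_one, coeff_C_succ, mul_one, add_zero]
        rw [this]
        exact hqH
      · have : (C q * X + C (-p) : ℤ[X]).coeff (j + 1 + 1) = 0 := by
          rw [coeff_add, coeff_C_mul, coeff_X, coeff_C]
          simp
        rw [this]
        simpa using (abs_nonneg _).trans hp
    · rw [map_add, map_mul, aeval_C, aeval_C, aeval_X]
      simp only [eq_intCast, Int.cast_neg]
      field_simp
      ring

/-- the numbers `x` and `y` are not within `H^(-k)` of the fractions `p / q` of height `H` -/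
def Good (x y : ℝ) (k : ℕ) (H : ℝ) : Prop :=
  ∀ p q : ℤ, q ≠ 0 → |(p : ℝ)| ≤ H → |(q : ℝ)| ≤ H →
    1 / H ^ k < |x - p / q| ∧ 1 / H ^ k < |y - p / q|

lemma irr_iff (x : ℝ) : Irrational x ↔ ∀ H, (x : ℂ) ∉ AlgH 1 H := by
  constructor
  · intro hx H hmem
    obtain ⟨p, q, hq, -, -, h⟩ := (algH_one_iff H _).1 hmem
    apply hx
    refine ⟨p / q, ?_⟩
    have : ((((p / q : ℚ) : ℝ)) : ℂ) = (x : ℂ) := by rw [h]; push_cast; rfl
    exact_mod_cast this
  · rintro h ⟨r, hr⟩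
    apply h (max |(r.num : ℝ)| |(r.den : ℝ)|)
    rw [algH_one_iff]
    refine ⟨r.num, r.den, by exact_mod_cast r.den_nz, le_max_left _ _, by
      rw [Int.cast_natCast]; exact le_max_right _ _, ?_⟩
    rw [← hr]
    have := Rat.num_div_den r
    have h1 : ((r : ℝ) : ℂ) = ((r.num / r.den : ℚ) : ℂ) := by rw [this]; norm_cast
    rw [h1]
    push_cast
    rfl

theorem pi_e (A : ℕ) (h1 : Irrational (Real.pi + Real.exp 1))
    (h2 : Irrational (Real.pi - Real.exp 1)) :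
    ∃ k : ℕ, ∀ X₀ : ℝ, ∃ X : ℝ, X₀ ≤ X ∧ 2 ≤ X ∧ ∀ H : ℝ, X ≤ H → H ≤ X ^ A →
      Good (Real.pi + Real.exp 1) (Real.pi - Real.exp 1) k H := by
  have e1 : ((Real.pi + Real.exp 1 : ℝ) : ℂ) = (Real.pi : ℂ) +
      ∑ i : Fin 1, (![![(1 : ℂ)], ![-1]] 0) i * Complex.exp ((fun _ : Fin 1 => (1 : ℂ)) i) := by
    simp
  have e2 : ((Real.pi - Real.exp 1 : ℝ) : ℂ) = (Real.pi : ℂ) +
      ∑ i : Fin 1, (![![(1 : ℂ)], ![-1]] 1) i * Complex.exp ((fun _ : Fin 1 => (1 : ℂ)) i) := by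
    simp [sub_eq_add_neg]
  obtain ⟨k, hk⟩ := family (n := 1) (m := 2) (fun _ => 1) (fun _ => isAlgebraic_one)
    (fun _ => one_ne_zero) (fun _ _ _ => Subsingleton.elim _ _) ![![1], ![-1]] (by
      intro j i
      fin_cases j <;> fin_cases i
      · exact isAlgebraic_one
      · exact isAlgebraic_one.neg) (Real.pi : ℂ) 1 (by
      intro j H
      fin_cases j
      · have := (irr_iff _).1 h1 H
        rwa [e1] at this
      · have := (irr_iff _).1 h2 H
        rwa [e2] at this) A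
  refine ⟨k, fun X₀ => ?_⟩
  obtain ⟨X, h3, h4, h5⟩ := hk X₀
  refine ⟨X, h3, h4, fun H hX hXA p q hq hp hqH => ?_⟩
  have hmem : (((p / q : ℝ)) : ℂ) ∈ AlgH 1 H := by
    rw [algH_one_iff]
    exact ⟨p, q, hq, hp, hqH, by push_cast; rfl⟩
  have h6 := h5 H hX hXA 0 _ hmem
  have h7 := h5 H hX hXA 1 _ hmem
  rw [← e1, ← Complex.ofReal_sub, Complex.norm_real, Real.norm_eq_abs] at h6
  rw [← e2, ← Complex.ofReal_sub, Complex.norm_real, Real.norm_eq_abs] at h7
  exact ⟨h6, h7⟩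

theorem irr_of_good {x y : ℝ} {k : ℕ} (h : ∀ X₀ : ℝ, ∃ H : ℝ, X₀ ≤ H ∧ 2 ≤ H ∧ Good x y k H) :
    Irrational x ∧ Irrational y := by
  have key : ∀ z : ℝ, (∀ X₀ : ℝ, ∃ H : ℝ, X₀ ≤ H ∧ 2 ≤ H ∧ ∀ p q : ℤ, q ≠ 0 → |(p : ℝ)| ≤ H →
      |(q : ℝ)| ≤ H → 1 / H ^ k < |z - p / q|) → Irrational z := by
    rintro z hz ⟨r, hr⟩
    obtain ⟨H, h1, h2, h3⟩ := hz (max |(r.num : ℝ)| |(r.den : ℝ)|)
    have h4 := h3 r.num r.den (by exact_mod_cast r.den_nz) ((le_max_left _ _).trans h1) (by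
      rw [Int.cast_natCast]; exact (le_max_right _ _).trans h1)
    have h5 : z - (r.num : ℝ) / ((r.den : ℤ) : ℝ) = 0 := by
      rw [← hr]
      have h6 : ((r.num / r.den : ℚ) : ℝ) = (r : ℝ) := by rw [Rat.num_div_den]
      rw [← h6]
      push_cast
      ring
    rw [h5, abs_zero] at h4
    have : 0 < 1 / H ^ k := by positivity
    linarith
  refine ⟨key x fun X₀ => ?_, key y fun X₀ => ?_⟩
  · obtain ⟨H, h1, h2, h3⟩ := h X₀
    exact ⟨H, h1, h2, fun p q hq hp hqH => (h3 p q hq hp hqH).1⟩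
  · obtain ⟨H, h1, h2, h3⟩ := h X₀
    exact ⟨H, h1, h2, fun p q hq hp hqH => (h3 p q hq hp hqH).2⟩

lemma im_zero {z : ℂ} (h : (starRingEnd ℂ) z = z) : z.im = 0 := Complex.conj_eq_iff_im.1 h

lemma conj_algH {D : ℕ} {H : ℝ} {ρ : ℂ} (hρ : ρ ∈ AlgH D H) : (starRingEnd ℂ) ρ ∈ AlgH D H := by
  obtain ⟨R, h1, h2, h3, h4⟩ := hρ
  refine ⟨R, h1, h2, h3, ?_⟩
  have h5 : aeval ((starRingEnd ℂ) ρ) R = (starRingEnd ℂ) (aeval ρ R) := by
    rw [aeval_eq_sum_range, aeval_eq_sum_range, map_sum]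
    refine Finset.sum_congr rfl fun j _ => ?_
    rw [map_zsmul, map_pow]
  rw [h5, h4, map_zero]

/-- (1) -/
theorem one_sum {n : ℕ} (α : Fin n → ℂ) (hα : ∀ i, IsAlgebraic ℚ (α i))
    (h0 : ∀ i, α i ≠ 0) (hinj : Function.Injective α) (D : ℕ) :
    ∃ k : ℕ, ∀ H : ℝ, 2 ≤ H → ∀ v : Option (Fin n) → ℂ, (∀ o, v o ∈ AlgH D H) →
      (∀ w : Option (Fin n) → ℂ, (∀ o, w o ∈ AlgH D H) → v ≠ w →
        1 / H ^ k < ‖sum α v - sum α w‖ ∧
        ∀ t : ℂ, ‖t - sum α v‖ ≤ 1 / H ^ k → 1 / H ^ k < ‖t - sum α w‖) ∧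
      ((∀ i, ∃ j, α j = (starRingEnd ℂ) (α i)) → ∀ t : ℝ, ‖(t : ℂ) - sum α v‖ ≤ 1 / H ^ k →
        (sum α v).im = 0) := by
  classical
  obtain ⟨k, hk⟩ := H596.U.esum_separated α hα h0 hinj D
  have key : ∀ H : ℝ, 2 ≤ H → 2 * (1 / H ^ (k + 1)) ≤ 1 / H ^ k := by
    intro H hH
    rw [pow_succ, ← div_div]
    have h9 : 1 / H ^ k / H ≤ 1 / H ^ k / 2 :=
      div_le_div_of_nonneg_left (by positivity) (by norm_num) hH
    linarith
  have huniq : ∀ H : ℝ, 2 ≤ H → ∀ v w : Option (Fin n) → ℂ, (∀ o, v o ∈ AlgH D H) →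
      (∀ o, w o ∈ AlgH D H) → ∀ t : ℂ, ‖t - sum α v‖ ≤ 1 / H ^ (k + 1) →
      ‖t - sum α w‖ ≤ 1 / H ^ (k + 1) → v = w := by
    intro H hH v w hv hw t h1 h2
    by_contra hne
    have h3 := hk H hH v w hv hw hne
    have h4 : ‖H596.U.esum α v - H596.U.esum α w‖ ≤ ‖t - sum α w‖ + ‖t - sum α v‖ := by
      have : H596.U.esum α v - H596.U.esum α w = (t - sum α w) - (t - sum α v) := by
        rw [sum_eq, sum_eq]; ring
      rw [this]
      exact norm_sub_le _ _
    linarith [key H hH]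
  refine ⟨k + 1, fun H hH v hv => ⟨fun w hw hne => ⟨?_, fun t ht => ?_⟩, fun hconj t ht => ?_⟩⟩
  · refine lt_of_le_of_lt ?_ (hk H hH v w hv hw hne)
    exact one_div_le_one_div_of_le (by positivity)
      (pow_le_pow_right₀ (by linarith) (Nat.le_succ k))
  · by_contra hcon
    exact hne (huniq H hH v w hv hw t ht (not_lt.1 hcon))
  · choose π hπ using hconj
    have hπinj : Function.Injective π := by
      intro i j hij
      apply hinj
      have := hπ i
      rw [hij, hπ j] at this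
      exact ((starRingEnd ℂ).injective this).symm
    have hπbij : Function.Bijective π := Finite.injective_iff_bijective.1 hπinj
    let e : Fin n ≃ Fin n := Equiv.ofBijective π hπbij
    -- the conjugate sum
    let w : Option (Fin n) → ℂ := fun o =>
      o.elim ((starRingEnd ℂ) (v none)) fun i => (starRingEnd ℂ) (v (some (e.symm i)))
    have hw : sum α w = (starRingEnd ℂ) (sum α v) := by
      simp only [sum, w, Option.elim_none, Option.elim_some, map_add, map_sum, map_mul]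
      congr 1
      rw [← Equiv.sum_comp e]
      refine Finset.sum_congr rfl fun i _ => ?_
      rw [Equiv.symm_apply_apply]
      congr 1
      rw [← Complex.exp_conj]
      congr 1
      exact hπ i
    have h3 : ‖(t : ℂ) - sum α w‖ ≤ 1 / H ^ (k + 1) := by
      have h4 : (t : ℂ) - sum α w = (starRingEnd ℂ) ((t : ℂ) - sum α v) := by
        rw [hw, map_sub, Complex.conj_ofReal]
      rw [h4, Complex.norm_conj]
      exact ht
    have h5 := huniq H hH v w hv (by
      rintro (_ | i)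
      · exact conj_algH (hv none)
      · exact conj_algH (hv _)) t ht h3
    refine im_zero ?_
    rw [← hw, ← h5]

/-- **Simultaneous windows.** -/
theorem result :
    -- (1) one sum at each scale
    (∀ (n : ℕ) (α : Fin n → ℂ), (∀ i, IsAlgebraic ℚ (α i)) → (∀ i, α i ≠ 0) →
      Function.Injective α → ∀ D : ℕ, ∃ k : ℕ, ∀ H : ℝ, 2 ≤ H →
      ∀ v : Option (Fin n) → ℂ, (∀ o, v o ∈ AlgH D H) →
        (∀ w : Option (Fin n) → ℂ, (∀ o, w o ∈ AlgH D H) → v ≠ w →
          1 / H ^ k < ‖sum α v - sum α w‖ ∧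
          ∀ t : ℂ, ‖t - sum α v‖ ≤ 1 / H ^ k → 1 / H ^ k < ‖t - sum α w‖) ∧
        ((∀ i, ∃ j, α j = (starRingEnd ℂ) (α i)) → ∀ t : ℝ, ‖(t : ℂ) - sum α v‖ ≤ 1 / H ^ k →
          (sum α v).im = 0)) ∧
    -- (2) an exact relation or windows of scales without near relations
    (∀ (n : ℕ) (α : Fin n → ℂ), (∀ i, IsAlgebraic ℚ (α i)) → (∀ i, α i ≠ 0) →
      Function.Injective α → ∀ t : ℂ,
      (∃ v : Option (Fin n) → ℂ, (∀ o, IsAlgebraic ℚ (v o)) ∧ t = sum α v) ∨
      ∀ D A : ℕ, ∃ k : ℕ, ∀ X₀ : ℝ, ∃ X : ℝ, X₀ ≤ X ∧ 2 ≤ X ∧ ∀ H : ℝ, X ≤ H → H ≤ X ^ A →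
        ∀ v : Option (Fin n) → ℂ, (∀ o, v o ∈ AlgH D H) → 1 / H ^ k < ‖t - sum α v‖) ∧
    -- (3) finitely many numbers `θ_j` at the same scales
    (∀ (n m : ℕ) (α : Fin n → ℂ), (∀ i, IsAlgebraic ℚ (α i)) → (∀ i, α i ≠ 0) →
      Function.Injective α → ∀ ρ : Fin m → Fin n → ℂ, (∀ j i, IsAlgebraic ℚ (ρ j i)) →
      ∀ (t : ℂ) (θ : Fin m → ℂ), (∀ j, θ j = t + ∑ i, ρ j i * Complex.exp (α i)) → ∀ D : ℕ,
      List.TFAE [
        ∀ j H, θ j ∉ AlgH D H,
        ∃ k : ℕ, ∀ X₀ : ℝ, ∃ H : ℝ, X₀ ≤ H ∧ 2 ≤ H ∧ ∀ j, ∀ ξ ∈ AlgH D H, 1 / H ^ k < ‖θ j - ξ‖,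
        ∀ A : ℕ, ∃ k : ℕ, ∀ X₀ : ℝ, ∃ X : ℝ, X₀ ≤ X ∧ 2 ≤ X ∧ ∀ H : ℝ, X ≤ H → H ≤ X ^ A →
          ∀ j, ∀ ξ ∈ AlgH D H, 1 / H ^ k < ‖θ j - ξ‖]) ∧
    -- (4) `π + e` and `π - e`
    List.TFAE [
      Irrational (Real.pi + Real.exp 1) ∧ Irrational (Real.pi - Real.exp 1),
      ∃ k : ℕ, ∀ X₀ : ℝ, ∃ H : ℝ, X₀ ≤ H ∧ 2 ≤ H ∧
        Good (Real.pi + Real.exp 1) (Real.pi - Real.exp 1) k H,
      ∀ A : ℕ, ∃ k : ℕ, ∀ X₀ : ℝ, ∃ X : ℝ, X₀ ≤ X ∧ 2 ≤ X ∧ ∀ H : ℝ, X ≤ H → H ≤ X ^ A →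
        Good (Real.pi + Real.exp 1) (Real.pi - Real.exp 1) k H] := by
  refine ⟨fun n α hα h0 hinj D => one_sum α hα h0 hinj D, fun n α hα h0 hinj t => ?_,
    fun n m α hα h0 hinj ρ hρ t θ hθ D => ?_, ?_⟩
  · by_cases ht : ∃ v : Option (Fin n) → ℂ, (∀ o, IsAlgebraic ℚ (v o)) ∧ t = sum α v
    · exact Or.inl ht
    · push Not at ht
      exact Or.inr fun D A => H596.U.esum_windows α hα h0 hinj t
        (fun v hv h => ht v hv h.symm) D A
  · tfae_have 1 → 3 := by
      intro h A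
      obtain ⟨k, hk⟩ := family α hα h0 hinj ρ hρ t D (fun j H => by rw [← hθ]; exact h j H) A
      refine ⟨k, fun X₀ => ?_⟩
      obtain ⟨X, h1, h2, h3⟩ := hk X₀
      exact ⟨X, h1, h2, fun H hX hXA j ξ hξ => by rw [hθ]; exact h3 H hX hXA j ξ hξ⟩
    tfae_have 3 → 2 := by
      intro h
      obtain ⟨k, hk⟩ := h 1
      refine ⟨k, fun X₀ => ?_⟩
      obtain ⟨X, h1, h2, h3⟩ := hk X₀
      exact ⟨X, h1, h2, h3 X le_rfl (by rw [pow_one])⟩
    tfae_have 2 → 1 := by
      rintro ⟨k, hk⟩ j H₀ hmem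
      obtain ⟨H, h1, h2, h3⟩ := hk H₀
      have h4 := h3 j (θ j) (mono le_rfl h1 hmem)
      rw [sub_self, norm_zero] at h4
      have : 0 < 1 / H ^ k := by positivity
      linarith
    tfae_finish
  · tfae_have 1 → 3 := fun h A => pi_e A h.1 h.2
    tfae_have 3 → 2 := by
      intro h
      obtain ⟨k, hk⟩ := h 1
      refine ⟨k, fun X₀ => ?_⟩
      obtain ⟨X, h1, h2, h3⟩ := hk X₀
      exact ⟨X, h1, h2, h3 X le_rfl (by rw [pow_one])⟩
    tfae_have 2 → 1 := by
      rintro ⟨k, hk⟩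
      exact irr_of_good hk
    tfae_finish

end Pool.Agent.Results.MP_363d4d_nt.SimultaneousWindows
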